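import Mathlib
import Pool.Agent.NearOne652.Len

set_option autoImplicit false

open Finset

namespace Pool.Agent.Results.MP_1f047c_nt.NearOneComplex

/-- Singular `n × n` matrices whose entries are integer combinations of logarithms of algebraic
numbers `1 + t_l / (D H)` have a rational zero coefficient once `H` is large. -/
theorem result (K : Type) [Field K] [NumberField K] (σ : K →+* ℂ)
    (n k D H m : ℕ) (hn : 1 ≤ n) (B : ℝ) (hD : D ≠ 0) (hDB : (D : ℝ) ≤ B)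
    (t : Fin k → K) (ht0 : ∀ i, t i ≠ 0) (htinj : Function.Injective t)
    (hti : ∀ i, IsIntegral ℤ (t i)) (htB : ∀ (φ : K →+* ℂ) i, ‖φ (t i)‖ ≤ B)
    (β : Fin n → Fin n → Fin k → ℤ) (hβ : ∀ i j l, |(β i j l : ℝ)| ≤ B)
    (hm : m = ∑ i ∈ range (n + 1), k ^ i)
    (hH : (4 * (n.factorial : ℝ) * ((m.factorial : ℝ) * (k + 1) * (m * n + 1)) ^ n *
      B ^ (m * n + n + m + 1)) ^ (Module.finrank ℚ K + 1) < (H : ℝ))
    (M : Matrix (Fin n) (Fin n) ℂ)
    (hM : ∀ i j, M i j = ∑ l, (β i j l : ℂ) * Complex.log (1 + σ (t l / D) / H))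
    (hdet : M.det = 0) :
    ∃ w v : Fin n → ℚ, w ≠ 0 ∧ v ≠ 0 ∧ ∑ i, ∑ j, (w i : ℂ) * M i j * (v j : ℂ) = 0 :=
  Pool.Agent.NearOne652.singularC K σ n k D H m hn B hD hDB t ht0 htinj hti htB β hβ hm hH M hM
    hdet

end Pool.Agent.Results.MP_1f047c_nt.NearOneComplex
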