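import Mathlib
import Pool.Agent.NearOne652.DetForm

set_option autoImplicit false

open Finset

namespace Pool.Agent.Results.MP_1f047c_nt.NearOnePadic

open Pool.Agent.NearOne652

/-- Singular `n × n` matrices whose entries are integer combinations of `p`-adic logarithms of algebraic
numbers very close to `1` have a rational zero coefficient. -/
theorem result (p : ℕ) [Fact p.Prime] (L : ℂ_[p] → ℂ_[p])
    (hL : ∀ z : ℂ_[p], ‖z‖ < 1 →
      HasSum (fun r : ℕ => (-1 : ℂ_[p]) ^ r * z ^ (r + 1) / ((r : ℂ_[p]) + 1)) (L (1 + z)))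
    (K : Type) [Field K] [NumberField K] (σ : K →+* ℂ_[p])
    (n k N D m : ℕ) (hn : 1 ≤ n) (B : ℝ) (hD : ¬ p ∣ D) (hDB : (D : ℝ) ≤ B)
    (t : Fin k → K) (ht0 : ∀ i, t i ≠ 0) (htinj : Function.Injective t)
    (hti : ∀ i, IsIntegral ℤ (t i)) (htB : ∀ (φ : K →+* ℂ) i, ‖φ (t i)‖ ≤ B)
    (β : Fin n → Fin n → Fin k → ℤ) (hβ : ∀ i j l, |(β i j l : ℝ)| ≤ B)
    (hm : m = ∑ i ∈ range (n + 1), k ^ i)
    (hN : ((n.factorial : ℝ) * ((m : ℝ) * m.factorial * (k + 1)) ^ n * B ^ (m * n + n + m)) ^
      (Module.finrank ℚ K) < (p : ℝ) ^ N)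
    (M : Matrix (Fin n) (Fin n) ℂ_[p])
    (hM : ∀ i j, M i j = ∑ l, (β i j l : ℂ_[p]) * L (1 + (p : ℂ_[p]) ^ N * σ (t l / D)))
    (hdet : M.det = 0) :
    ∃ w v : Fin n → ℚ, w ≠ 0 ∧ v ≠ 0 ∧ ∑ i, ∑ j, (w i : ℂ_[p]) * M i j * (v j : ℂ_[p]) = 0 := by
  have hD0 : D ≠ 0 := by
    rintro rfl
    exact hD (dvd_zero p)
  have hD1 : (1 : ℝ) ≤ D := by exact_mod_cast Nat.one_le_iff_ne_zero.2 hD0
  have hB : 1 ≤ B := by linarith
  have hB0 : 0 ≤ B := by linarith
  have hm1 : 1 ≤ m := by
    rw [hm, Finset.sum_range_succ', pow_zero]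
    omega
  have hm1r : (1 : ℝ) ≤ m := by exact_mod_cast hm1
  have hfac : (1 : ℝ) ≤ m.factorial := by exact_mod_cast Nat.succ_le_of_lt m.factorial_pos
  have hnfac : (1 : ℝ) ≤ n.factorial := by exact_mod_cast Nat.succ_le_of_lt n.factorial_pos
  have hk1 : (1 : ℝ) ≤ (k : ℝ) + 1 := by
    have : (0 : ℝ) ≤ k := by positivity
    linarith
  set X : ℝ := (n.factorial : ℝ) * ((m : ℝ) * m.factorial * (k + 1)) ^ n *
    B ^ (m * n + n + m) with hX
  have hXm : (m : ℝ) ≤ X := by
    have h2 : (m : ℝ) ≤ (m : ℝ) * m.factorial := le_mul_of_one_le_right (by linarith) hfac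
    have h3 : (m : ℝ) ≤ (m : ℝ) * m.factorial * (k + 1) :=
      h2.trans (le_mul_of_one_le_right (by positivity) hk1)
    have h4 : (m : ℝ) ≤ ((m : ℝ) * m.factorial * (k + 1)) ^ n :=
      h3.trans (le_self_pow₀ (hm1r.trans h3) (by omega))
    have h5 : (m : ℝ) ≤ (n.factorial : ℝ) * ((m : ℝ) * m.factorial * (k + 1)) ^ n :=
      h4.trans (le_mul_of_one_le_left (by positivity) hnfac)
    exact h5.trans (le_mul_of_one_le_right (by positivity) (one_le_pow₀ hB))
  have hX1 : 1 ≤ X := hm1r.trans hXm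
  have hXd : X ≤ X ^ (Module.finrank ℚ K) :=
    le_self_pow₀ hX1 (Module.finrank_pos (R := ℚ) (M := K)).ne'
  have hq : (m : ℝ) < (p : ℝ) ^ N := by linarith
  have hq1 : m + 1 ≤ p ^ N := by
    have : m < p ^ N := by exact_mod_cast hq
    omega
  set F : MvPolynomial (Fin k) K := MvPolynomial.map (Int.castRingHom K) (lf β).det with hF
  set lam : Fin k → ℂ_[p] := fun l => L (1 + (p : ℂ_[p]) ^ N * σ (t l / D)) with hlam
  have hF0 : F = 0 := by
    refine core p L hL σ k n N D hD t ht0 htinj hti F ?_ ?_ m hm X ?_ hq1 hN ?_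
    · intro a ha
      rw [hF, MvPolynomial.coeff_map,
        coeff_zero_of_totalDegree _ n (totalDegree_det_lf β) a ha, map_zero]
    · intro a
      rw [hF, MvPolynomial.coeff_map]
      exact isIntegral_algebraMap
    · intro φ e he
      have hTB : ∀ i, ‖φ (t i / D)‖ ≤ B := by
        intro i
        rw [map_div₀, map_natCast, norm_div, Complex.norm_natCast]
        calc ‖φ (t i)‖ / D ≤ ‖φ (t i)‖ / 1 :=
              div_le_div_of_nonneg_left (norm_nonneg _) one_pos hD1
          _ = ‖φ (t i)‖ := div_one _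
          _ ≤ B := htB φ i
      have hev : evK (fun i => t i / D) F = (Matrix.of fun i j =>
          ∑ l, ((β i j l : ℤ) : PowerSeries K) * lg (t l / D)).det := by
        rw [hF, evK, MvPolynomial.eval₂_map, ← eval_det_lf]
        congr 1
        ext x
        simp
      have hBD : BD φ B m ((n.factorial : ℝ) * (m * (k * B)) ^ n)
          (evK (fun i => t i / D) F) := by
        rw [hev]
        apply BD_det φ B hB0 m n (k * B) (by positivity)
        intro i j
        simp only [Matrix.of_apply]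
        have h1 := BD.sum (φ := φ) (B := B) (m := m) (univ : Finset (Fin k))
          (fun l => ‖φ ((β i j l : ℤ) : K)‖ * 1)
          (fun l => PowerSeries.C ((β i j l : ℤ) : K) * lg (t l / D))
          (fun l _ => BD.C_mul _ (BD.lg hB0 _ (hTB l)))
        have h2 : ∑ l : Fin k, ‖φ ((β i j l : ℤ) : K)‖ * 1 ≤ k * B := by
          calc ∑ l : Fin k, ‖φ ((β i j l : ℤ) : K)‖ * 1 ≤ ∑ l : Fin k, B := by
                refine Finset.sum_le_sum fun l _ => ?_
                rw [mul_one, map_intCast, Complex.norm_intCast]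
                exact hβ i j l
            _ = k * B := by simp
        have h3 := BD.mono hB0 h2 h1
        simpa using h3
      have h1 := hBD e he
      rw [map_mul, norm_mul, map_natCast, Complex.norm_natCast]
      have h2 : (((m.factorial * D ^ m) ^ n : ℕ) : ℝ) ≤ (m.factorial : ℝ) ^ n * B ^ (m * n) := by
        push_cast
        rw [mul_pow, ← pow_mul]
        exact mul_le_mul_of_nonneg_left (pow_le_pow_left₀ (by positivity) hDB _) (by positivity)
      have h3 : ‖φ (PowerSeries.coeff e (evK (fun i => t i / D) F))‖ ≤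
          (n.factorial : ℝ) * (m * ((k + 1) * B)) ^ n * B ^ m := by
        refine h1.trans ?_
        have h4 : B ^ e ≤ B ^ m := pow_le_pow_right₀ hB he.le
        have h5 : ((m : ℝ) * (k * B)) ^ n ≤ (m * ((k + 1) * B)) ^ n := by
          apply pow_le_pow_left₀ (by positivity)
          apply mul_le_mul_of_nonneg_left _ (by positivity)
          apply mul_le_mul_of_nonneg_right _ hB0
          linarith
        exact mul_le_mul (mul_le_mul_of_nonneg_left h5 (by positivity)) h4 (by positivity)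
          (by positivity)
      calc (((m.factorial * D ^ m) ^ n : ℕ) : ℝ) *
            ‖φ (PowerSeries.coeff e (evK (fun i => t i / D) F))‖
          ≤ ((m.factorial : ℝ) ^ n * B ^ (m * n)) *
            ((n.factorial : ℝ) * (m * ((k + 1) * B)) ^ n * B ^ m) :=
            mul_le_mul h2 h3 (norm_nonneg _) (by positivity)
        _ = X := by
            rw [hX, mul_pow, mul_pow, mul_pow, mul_pow, pow_add, pow_add]
            ring
    · rw [hF, MvPolynomial.eval₂_map]
      have h1 : σ.comp (Int.castRingHom K) = Int.castRingHom ℂ_[p] := by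
        ext x
        simp
      rw [h1, eval_det_lf, ← hdet]
      congr 1
      ext i j
      rw [hM i j]
      simp [Matrix.of_apply]
  have hdet0 : (lf β).det = 0 := by
    apply MvPolynomial.map_injective (Int.castRingHom K) (Int.cast_injective)
    rw [map_zero]
    exact hF0
  obtain ⟨w, v, hw, hv, h⟩ := pencil_int hn β hdet0
  refine ⟨w, v, hw, hv, ?_⟩
  have h1 : ∀ i j, (w i : ℂ_[p]) * M i j * (v j : ℂ_[p]) =
      ∑ l, ((w i * (β i j l : ℚ) * v j : ℚ) : ℂ_[p]) * lam l := by
    intro i j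
    rw [hM i j, Finset.mul_sum, Finset.sum_mul]
    refine Finset.sum_congr rfl fun l _ => ?_
    push_cast
    ring
  calc ∑ i, ∑ j, (w i : ℂ_[p]) * M i j * (v j : ℂ_[p])
      = ∑ i, ∑ j, ∑ l, ((w i * (β i j l : ℚ) * v j : ℚ) : ℂ_[p]) * lam l := by
        simp only [h1]
    _ = ∑ l, ((∑ i, ∑ j, w i * (β i j l : ℚ) * v j : ℚ) : ℂ_[p]) * lam l := by
        rw [Finset.sum_congr rfl fun i _ => Finset.sum_comm, Finset.sum_comm]
        refine Finset.sum_congr rfl fun l _ => ?_
        push_cast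
        simp only [Finset.sum_mul]
    _ = 0 := by
        apply Finset.sum_eq_zero
        intro l _
        rw [h l]
        simp

end Pool.Agent.Results.MP_1f047c_nt.NearOnePadic
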